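import Pool.Agent.Helper48_LPY.Stmts
import Pool.Agent.Helper48_LPY.Basic

/-!
# LPY, module CONU: upper tail for the flexible nodes
-/

set_option autoImplicit false

namespace Pool.Agent.LPY.H68

open Pool.Agent.LAX Pool.Agent.LPY

/-- `exp y ≤ 1 + y (1 + 2 ^ -6)` for `0 ≤ y ≤ 2 ^ -6`. -/
theorem exp_le (y : ℝ) (h0 : 0 ≤ y) (h1 : y ≤ 1 / 64) : Real.exp y ≤ 1 + 65 / 64 * y := by
  have h : Real.exp y ≤ 1 + y + y ^ 2 := by
    have h3 := Real.abs_exp_sub_one_sub_id_le (x := y) (by rw [abs_of_nonneg h0]; linarith)
    have h4 := (abs_le.1 h3).2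
    linarith
  have h5 : y ^ 2 ≤ 1 / 64 * y := by nlinarith
  linarith

/-- Exponential moment of a bounded function. -/
theorem expmom {Ω : Type} [Fintype Ω] (X : Ω → ℝ) (μ : ℝ)
    (h0 : ∀ ω, 0 ≤ X ω) (h1 : ∀ ω, X ω ≤ 2048)
    (hm : ∑ ω, X ω ≤ Fintype.card Ω * μ) :
    ∑ ω, Real.exp (8 * (th * X ω)) ≤ Fintype.card Ω * Real.exp (8 * (th * (65 / 64 * μ))) := by
  have hth : (0 : ℝ) < 8 * th := by have := th_pos; linarith
  have hth2 : 8 * th * 2048 = 1 / 64 := by unfold th; norm_num
  calc ∑ ω, Real.exp (8 * (th * X ω)) ≤ ∑ ω, (1 + 65 / 64 * (8 * (th * X ω))) := by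
        apply Finset.sum_le_sum
        intro ω _
        apply exp_le
        · have := mul_nonneg hth.le (h0 ω)
          linarith
        · have := mul_le_mul_of_nonneg_left (h1 ω) hth.le
          linarith
    _ = Fintype.card Ω + 65 / 64 * (8 * th) * ∑ ω, X ω := by
        rw [Finset.sum_add_distrib, Finset.mul_sum]
        simp only [Finset.sum_const, Finset.card_univ, nsmul_eq_mul, mul_one]
        congr 1
        apply Finset.sum_congr rfl
        intro ω _
        ring
    _ ≤ Fintype.card Ω + 65 / 64 * (8 * th) * (Fintype.card Ω * μ) := by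
        have := mul_le_mul_of_nonneg_left hm (show 0 ≤ 65 / 64 * (8 * th) by linarith)
        linarith
    _ = Fintype.card Ω * (8 * (th * (65 / 64 * μ)) + 1) := by ring
    _ ≤ _ := by
        apply mul_le_mul_of_nonneg_left (Real.add_one_le_exp _) (by positivity)

theorem sum_ind {V : Type} [Fintype V] (S : Set V) (c : ℝ) (g : V → ℝ) :
    ∑ v, S.indicator (fun v => c * g v) v = c * ∑ v, S.indicator g v := by
  rw [Finset.mul_sum]
  apply Finset.sum_congr rfl
  intro v _
  by_cases h : v ∈ S
  · rw [Set.indicator_of_mem h, Set.indicator_of_mem h]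
  · rw [Set.indicator_of_notMem h, Set.indicator_of_notMem h, mul_zero]

theorem conu (hB : BsumStmt) (hF : MarfStmt) (hC : CnbStmt) (hL : LocStmt) : ConuStmt := by
  classical
  intro V _ _ σ a B b ha hσ hb
  have hrr := rr_pos a
  have ha10 : 10 ≤ a := by omega
  have : Nonempty (Om a) := ⟨⟨⟨0, by positivity⟩, ⟨0, by positivity⟩, 0⟩⟩
  set Y : V → (V → Om a) → ℝ := fun v ω => ∑ i, (FL B ω).indicator b (v, i) with hY
  have hY1 : ∀ v ω, Y v ω = if isFlex B ω v then b (v, tl B ω v) else 0 := by
    intro v ω
    rw [hY]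
    by_cases h : isFlex B ω v
    · rw [if_pos h]
      show ∑ i, (FL B ω).indicator b (v, i) = _
      rw [Finset.sum_eq_single (tl B ω v)]
      · rw [Set.indicator_of_mem]
        exact ⟨h, rfl⟩
      · intro i _ hi
        rw [Set.indicator_of_notMem]
        intro hm
        exact hi hm.2.symm
      · intro hm
        exact absurd (Finset.mem_univ _) hm
    · rw [if_neg h]
      apply Finset.sum_eq_zero
      intro i _
      rw [Set.indicator_of_notMem]
      intro hm
      exact h hm.1
  have hY0 : ∀ v ω, 0 ≤ Y v ω := by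
    intro v ω
    rw [hY1]
    split_ifs
    · exact (hb _).1
    · exact le_rfl
  have hmain := hB V (Om a) σ (2 ^ a) B (fun v ω => th * Y v ω)
    (fun v => th * (6 / 5 * rr a * ∑ i, b (v, i))) (Nat.one_le_two_pow) ?_ ?_
  · refine le_trans (le_of_eq ?_) (hmain.trans (le_of_eq ?_))
    · apply Finset.sum_congr rfl
      intro ω _
      rw [← Finset.mul_sum, Fintype.sum_prod_type]
    · rw [← Finset.mul_sum, ← Finset.mul_sum, Fintype.sum_prod_type]
  · intro v ω ω' h
    have h1 := hL V σ a B ω ω' v ha10 h
    show th * Y v ω = th * Y v ω'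
    rw [hY1, hY1, h1.2.2.1]
    simp only [h1.1]
  · intro f hf
    have hbl : ∀ ω, ∑ v, {v | B.st v = f}.indicator (fun v => th * Y v ω) v =
        th * ∑ v, {v | B.st v = f}.indicator (fun v => Y v ω) v := fun ω => sum_ind _ _ _
    simp only [hbl]
    have hb2 : ∑ v, {v | B.st v = f}.indicator (fun v => th * (6 / 5 * rr a * ∑ i, b (v, i))) v =
        th * (6 / 5 * rr a * ∑ v, {v | B.st v = f}.indicator (fun v => ∑ i, b (v, i)) v) := by
      rw [sum_ind, sum_ind]
    rw [hb2]
    set Bs := ∑ v, {v | B.st v = f}.indicator (fun v => ∑ i, b (v, i)) v with hBs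
    have hBs0 : 0 ≤ Bs := by
      apply Finset.sum_nonneg
      intro v _
      apply Set.indicator_nonneg
      intro v _
      exact Finset.sum_nonneg fun i _ => (hb _).1
    have hsum : ∑ ω : V → Om a, ∑ v, {v | B.st v = f}.indicator (fun v => Y v ω) v ≤
        Fintype.card (V → Om a) * (8 / 7 * rr a * Bs) := by
      rw [Finset.sum_comm, hBs, Finset.mul_sum, Finset.mul_sum]
      apply Finset.sum_le_sum
      intro v _
      by_cases hv : v ∈ {v | B.st v = f}
      · simp only [Set.indicator_of_mem hv]
        rw [hY]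
        simp only
        rw [Finset.sum_comm, Finset.mul_sum, Finset.mul_sum]
        apply Finset.sum_le_sum
        intro i _
        have h1 : ∑ ω : V → Om a, (FL B ω).indicator b (v, i) =
            b (v, i) * (({ω | (v, i) ∈ FL B ω} : Set (V → Om a)).ncard : ℝ) := by
          rw [Set.ncard_eq_toFinset_card', Set.toFinset_ofPred, Finset.card_filter]
          push_cast
          rw [Finset.mul_sum]
          apply Finset.sum_congr rfl
          intro ω _
          by_cases h : (v, i) ∈ FL B ω
          · rw [Set.indicator_of_mem h, if_pos h, mul_one]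
          · rw [Set.indicator_of_notMem h, if_neg h, mul_zero]
        rw [h1]
        have h2 := (hF V σ a B ha hσ (v, i)).2
        have h3 := mul_le_mul_of_nonneg_left h2 (hb (v, i)).1
        refine h3.trans (le_of_eq ?_)
        ring
      · simp only [Set.indicator_of_notMem hv]
        simp
    have hkey := expmom (fun ω : V → Om a => ∑ v, {v | B.st v = f}.indicator (fun v => Y v ω) v)
      (8 / 7 * rr a * Bs) ?_ ?_ hsum
    · refine hkey.trans ?_
      apply mul_le_mul_of_nonneg_left _ (Nat.cast_nonneg _)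
      apply Real.exp_le_exp.2
      have h1 : 0 ≤ th * (rr a * Bs) := mul_nonneg th_pos.le (mul_nonneg hrr.le hBs0)
      have e1 : 8 * (th * (65 / 64 * (8 / 7 * rr a * Bs))) =
          (8 * (65 / 64) * (8 / 7)) * (th * (rr a * Bs)) := by ring
      have e2 : 8 * (th * (6 / 5 * rr a * Bs)) = (8 * (6 / 5)) * (th * (rr a * Bs)) := by ring
      rw [e1, e2]
      apply mul_le_mul_of_nonneg_right _ h1
      norm_num
    · intro ω
      apply Finset.sum_nonneg
      intro v _
      apply Set.indicator_nonneg
      intro v _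
      exact hY0 v ω
    · intro ω
      have hc := (hC V σ a B ω ha10 hσ f).1
      have h1 : ∑ v, {v | B.st v = f}.indicator (fun v => Y v ω) v ≤
          ∑ v, if v ∈ {v | B.st v = f ∧ v ∈ pk B ω} then (1 : ℝ) else 0 := by
        apply Finset.sum_le_sum
        intro v _
        by_cases hv : B.st v = f
        · rw [Set.indicator_of_mem (show v ∈ {v | B.st v = f} from hv), hY1]
          by_cases hfl : isFlex B ω v
          · rw [if_pos hfl, if_pos (show v ∈ {v | B.st v = f ∧ v ∈ pk B ω} from
              ⟨hv, Or.inl hfl⟩)]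
            exact (hb _).2
          · rw [if_neg hfl]
            split_ifs <;> norm_num
        · rw [Set.indicator_of_notMem (show v ∉ {v | B.st v = f} from hv)]
          split_ifs <;> norm_num
      refine h1.trans ?_
      rw [Finset.sum_ite, Finset.sum_const_zero, add_zero, Finset.sum_const, nsmul_eq_mul,
        mul_one]
      have h2 : (Finset.univ.filter fun v => v ∈ {v | B.st v = f ∧ v ∈ pk B ω}).card =
          {v | B.st v = f ∧ v ∈ pk B ω}.ncard := by
        rw [Set.ncard_eq_toFinset_card']
        congr 1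
        ext v
        simp
      rw [h2]
      exact_mod_cast hc

end Pool.Agent.LPY.H68
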