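import Pool.Agent.Helper48_LPY.Stmts
import Pool.Agent.Helper48_LPY.Basic

/-!
# LPY, module SUP: the conditions depend only on the data near `T`
-/

set_option autoImplicit false

namespace Pool.Agent.LPY.H68

open Pool.Agent.LAX Pool.Agent.LPY

theorem agree {V : Type} {Q : Set (V × V)} {T L L' : Set (V × Lab)}
    (hL : ∀ p ∈ T, ∀ v ∈ rho Q p.1, ∀ i, (v, i) ∈ L ↔ (v, i) ∈ L') (X : Set (V × Lab))
    (hX : ∀ q ∈ X, ∃ p ∈ T, q.1 ∈ rho Q p.1) : L ∩ X = L' ∩ X := by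
  ext q
  simp only [Set.mem_inter_iff]
  constructor
  · rintro ⟨h1, h2⟩
    obtain ⟨p, hp, hv⟩ := hX q h2
    exact ⟨(hL p hp q.1 hv q.2).1 h1, h2⟩
  · rintro ⟨h1, h2⟩
    obtain ⟨p, hp, hv⟩ := hX q h2
    exact ⟨(hL p hp q.1 hv q.2).2 h1, h2⟩

theorem sup : SupStmt := by
  intro V _ _ Q δ k0 r β L Et Eh L' Et' Eh' T0 T hδ hk hdeg hT h hN
  have hSS : ∀ q ∈ SS Q δ T, ∃ p ∈ T, q.1 ∈ rho Q p.1 := by
    intro q hq
    obtain ⟨p, hp, h2⟩ := mem_SS.1 hq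
    exact ⟨p, hp, Or.inl (mem_ow.1 h2).1⟩
  have hAA : ∀ q ∈ AA Q δ k0 T, ∃ p ∈ T, q.1 ∈ rho Q p.1 := by
    intro q hq
    obtain ⟨y, hy1, hy2⟩ := meets_of_mem_AA hδ hk (hdeg q.1) hq
    obtain ⟨p, hp, h2⟩ := mem_SS.1 hy2
    exact ⟨p, hp, Or.inr ⟨y.1, (mem_ow.1 hy1).1, (mem_ow.1 h2).1⟩⟩
  have eL := fun X hX => agree (L := L) (L' := L')
    (fun p hp v hv i => (h p hp v hv i).1) X hX
  have eT := fun X hX => agree (L := Et) (L' := Et')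
    (fun p hp v hv i => (h p hp v hv i).2.1) X hX
  have eH := fun X hX => agree (L := Eh) (L' := Eh')
    (fun p hp v hv i => (h p hp v hv i).2.2) X hX
  refine ⟨?_, ?_, ?_, ?_, ?_, ?_⟩
  · rw [← eL _ (fun q hq => hSS q hq.1)]
    exact hN.n0
  · rw [← eL _ (fun q hq => hSS q hq.1)]
    exact hN.n1
  · rw [← eL _ (fun q hq => hAA q hq.1)]
    exact hN.n2
  · rw [← eL _ hAA]
    exact hN.n3
  · rw [← eT _ hAA, ← eH _ hSS]
    exact hN.n4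
  · rw [← eL _ hAA]
    exact hN.n5

end Pool.Agent.LPY.H68
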